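import Mathlib

set_option autoImplicit false

/-!
Unconditional bases indexed by an arbitrary set, in any universe: uniform bounds for the
coordinate projections and domination of coordinates (copied from the file of the frozen proof
`Pool/Agent/S05097.lean`, there for `Type` only), and the countable family of thresholds.
-/

namespace Pool.Agent.MP_786be7_an.Ins

universe u v

section basis

variable {X : Type u} [NormedAddCommGroup X] [NormedSpace ℝ X] [CompleteSpace X]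
  {Γ : Type v} (e : Γ → X) (f : Γ → X →L[ℝ] ℝ)

/-- partial sum operator -/
noncomputable def S (A : Finset Γ) : X →L[ℝ] X := ∑ γ ∈ A, (f γ).smulRight (e γ)

omit [CompleteSpace X] in
lemma S_apply (A : Finset Γ) (x : X) : S e f A x = ∑ γ ∈ A, f γ x • e γ := by
  simp [S]

lemma S_bound (hs : ∀ x : X, HasSum (fun γ : Γ => f γ x • e γ) x) :
    ∃ K : ℝ, 0 < K ∧ ∀ (A : Finset Γ) (x : X), ‖∑ γ ∈ A, f γ x • e γ‖ ≤ K * ‖x‖ := by
  classical
  have h1 : ∀ x : X, ∃ C, ∀ A : Finset Γ, ‖S e f A x‖ ≤ C := by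
    intro x
    obtain ⟨s, hs'⟩ := (summable_iff_vanishing_norm.mp (hs x).summable) 1 one_pos
    refine ⟨(∑ γ ∈ s, ‖f γ x • e γ‖) + 1, fun A => ?_⟩
    rw [S_apply, ← Finset.sum_inter_add_sum_sdiff A s]
    refine (norm_add_le _ _).trans (add_le_add ?_ ?_)
    · refine (norm_sum_le _ _).trans ?_
      exact Finset.sum_le_sum_of_subset_of_nonneg Finset.inter_subset_right (fun _ _ _ => norm_nonneg _)
    · exact (hs' _ Finset.sdiff_disjoint).le
  obtain ⟨C, hC⟩ := banach_steinhaus h1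
  refine ⟨max C 1, by positivity, fun A x => ?_⟩
  rw [← S_apply e f]
  calc ‖S e f A x‖ ≤ ‖S e f A‖ * ‖x‖ := (S e f A).le_opNorm x
    _ ≤ max C 1 * ‖x‖ := mul_le_mul_of_nonneg_right ((hC A).trans (le_max_left _ _)) (norm_nonneg _)

omit [CompleteSpace X] in
lemma mult_bound (h1 : ∀ i : Γ, f i (e i) = 1) (h0 : ∀ i j : Γ, i ≠ j → f i (e j) = 0)
    {K : ℝ} (hK : ∀ (A : Finset Γ) (x : X), ‖∑ γ ∈ A, f γ x • e γ‖ ≤ K * ‖x‖)
    (A : Finset Γ) (a b : Γ → ℝ) (hab : ∀ γ ∈ A, |a γ| ≤ |b γ|) :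
    ‖∑ γ ∈ A, a γ • e γ‖ ≤ 2 * K * ‖∑ γ ∈ A, b γ • e γ‖ := by
  classical
  set z := ∑ γ ∈ A, b γ • e γ with hz
  have hfz : ∀ γ ∈ A, f γ z = b γ := by
    intro γ hγ
    rw [hz, map_sum, Finset.sum_eq_single γ]
    · simp [h1]
    · intro j _ hj
      simp [h0 γ j (Ne.symm hj)]
    · intro h; exact absurd hγ h
  by_cases hw : (∑ γ ∈ A, a γ • e γ) = 0
  · rw [hw, norm_zero]
    have := hK ∅ z
    simp at this
    nlinarith
  obtain ⟨g, hg1, hg2⟩ := exists_dual_vector ℝ _ (norm_ne_zero_iff.mpr hw)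
  have hg3 : ‖∑ γ ∈ A, a γ • e γ‖ = ∑ γ ∈ A, a γ * g (e γ) := by
    rw [← show g (∑ γ ∈ A, a γ • e γ) = ‖∑ γ ∈ A, a γ • e γ‖ from by simpa using hg2]
    simp [map_sum]
  rw [hg3]
  have hstep : ∀ B : Finset Γ, B ⊆ A → |∑ γ ∈ B, b γ * g (e γ)| ≤ K * ‖z‖ := by
    intro B hB
    have : ∑ γ ∈ B, b γ * g (e γ) = g (∑ γ ∈ B, f γ z • e γ) := by
      simp only [map_sum, map_smul, smul_eq_mul]
      exact Finset.sum_congr rfl (fun γ hγ => by rw [hfz γ (hB hγ)])
    rw [this]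
    calc |g (∑ γ ∈ B, f γ z • e γ)| ≤ ‖g‖ * ‖∑ γ ∈ B, f γ z • e γ‖ := g.le_opNorm _
      _ ≤ 1 * (K * ‖z‖) := by rw [hg1]; exact mul_le_mul_of_nonneg_left (hK B z) (by norm_num)
      _ = K * ‖z‖ := by ring
  calc ∑ γ ∈ A, a γ * g (e γ) ≤ ∑ γ ∈ A, |b γ * g (e γ)| := by
        apply Finset.sum_le_sum
        intro γ hγ
        calc a γ * g (e γ) ≤ |a γ * g (e γ)| := le_abs_self _
          _ = |a γ| * |g (e γ)| := abs_mul _ _
          _ ≤ |b γ| * |g (e γ)| := mul_le_mul_of_nonneg_right (hab γ hγ) (abs_nonneg _)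
          _ = |b γ * g (e γ)| := (abs_mul _ _).symm
    _ = ∑ γ ∈ A with 0 ≤ b γ * g (e γ), b γ * g (e γ) - ∑ γ ∈ A with ¬ (0 ≤ b γ * g (e γ)), b γ * g (e γ) := by
        rw [← Finset.sum_filter_add_sum_filter_not A (fun γ => 0 ≤ b γ * g (e γ)), sub_eq_add_neg,
          ← Finset.sum_neg_distrib]
        congr 1
        · apply Finset.sum_congr rfl
          intro γ hγ
          rw [Finset.mem_filter] at hγ
          exact abs_of_nonneg hγ.2
        · apply Finset.sum_congr rfl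
          intro γ hγ
          rw [Finset.mem_filter] at hγ
          exact abs_of_neg (not_le.mp hγ.2)
    _ ≤ K * ‖z‖ + K * ‖z‖ := by
        have i1 := hstep _ (Finset.filter_subset (fun γ => 0 ≤ b γ * g (e γ)) A)
        have i2 := hstep _ (Finset.filter_subset (fun γ => ¬ (0 ≤ b γ * g (e γ))) A)
        have j1 := (abs_le.mp i1).2
        have j2 := (abs_le.mp i2).1
        linarith
    _ = 2 * K * ‖z‖ := by ring

lemma dom_summable (hs : ∀ x : X, HasSum (fun γ : Γ => f γ x • e γ) x)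
    {C : ℝ} (hC0 : 0 < C)
    (hC : ∀ (A : Finset Γ) (a b : Γ → ℝ), (∀ γ ∈ A, |a γ| ≤ |b γ|) →
      ‖∑ γ ∈ A, a γ • e γ‖ ≤ C * ‖∑ γ ∈ A, b γ • e γ‖)
    (x : X) (a : Γ → ℝ) (ha : ∀ γ, |a γ| ≤ |f γ x|) :
    Summable (fun γ => a γ • e γ) ∧ ‖∑' γ, a γ • e γ‖ ≤ C * ‖x‖ := by
  have hsum : Summable (fun γ => a γ • e γ) := by
    rw [summable_iff_vanishing_norm]
    intro ε hε
    obtain ⟨s, hs'⟩ := (summable_iff_vanishing_norm.mp (hs x).summable) (ε / C) (by positivity)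
    refine ⟨s, fun t ht => ?_⟩
    calc ‖∑ γ ∈ t, a γ • e γ‖ ≤ C * ‖∑ γ ∈ t, f γ x • e γ‖ := hC t a _ (fun γ _ => ha γ)
      _ < C * (ε / C) := mul_lt_mul_of_pos_left (hs' t ht) hC0
      _ = ε := by field_simp
  refine ⟨hsum, ?_⟩
  have t1 := (hsum.hasSum).norm
  have t2 : Filter.Tendsto (fun A : Finset Γ => C * ‖∑ γ ∈ A, f γ x • e γ‖) Filter.atTop (nhds (C * ‖x‖)) :=
    Filter.Tendsto.const_mul C (hs x).norm
  exact le_of_tendsto_of_tendsto' t1 t2 (fun A => hC A a _ (fun γ _ => ha γ))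

end basis

/-- approximation of arbitrary values at finitely many points by a countable family of functions -/
lemma thresholds {Γ : Type v} (ι : Γ → ℝ) (hι : Function.Injective ι) :
    ∃ P : ℕ → Γ → ℝ, ∀ (F : Finset Γ) (v : Γ → ℝ) (ε : ℝ), 0 < ε →
      ∃ n, ∀ γ ∈ F, |P n γ - v γ| < ε := by
  classical
  refine ⟨fun n γ => TopologicalSpace.denseSeq C(ℝ, ℝ) n (ι γ), fun F v ε hε => ?_⟩
  -- interpolation
  let p : Polynomial ℝ := Lagrange.interpolate F ι v
  have hp : ∀ γ ∈ F, p.eval (ι γ) = v γ := fun γ hγ =>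
    Lagrange.eval_interpolate_at_node v (hι.injOn) hγ
  let g : C(ℝ, ℝ) := p.toContinuousMap
  have hopen : IsOpen {k : C(ℝ, ℝ) | ∀ γ ∈ F, |k (ι γ) - v γ| < ε} := by
    have : {k : C(ℝ, ℝ) | ∀ γ ∈ F, |k (ι γ) - v γ| < ε} = ⋂ γ ∈ F, {k : C(ℝ, ℝ) | |k (ι γ) - v γ| < ε} := by
      ext k; simp
    rw [this]
    apply isOpen_biInter_finset
    intro γ _
    have hc : Continuous (fun k : C(ℝ, ℝ) => |k (ι γ) - v γ|) :=
      ((continuous_eval_const (F := C(ℝ, ℝ)) (ι γ)).sub continuous_const).abs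
    exact isOpen_lt hc continuous_const
  obtain ⟨k, hk1, n, hn⟩ := (TopologicalSpace.denseRange_denseSeq C(ℝ, ℝ)).inter_open_nonempty _ hopen
    ⟨g, fun γ hγ => by simp [g, hp γ hγ, hε]⟩
  refine ⟨n, fun γ hγ => ?_⟩
  show |TopologicalSpace.denseSeq C(ℝ, ℝ) n (ι γ) - v γ| < ε
  rw [hn]
  exact hk1 γ hγ

/-- the index set of a normalised basis injects into the reals if the density is at most the
continuum -/
lemma exists_inj {X : Type u} [NormedAddCommGroup X] [NormedSpace ℝ X]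
    {Γ : Type v} (e : Γ → X) (f : Γ → X →L[ℝ] ℝ) (hn : ∀ i, ‖e i‖ = 1)
    (h1 : ∀ i : Γ, f i (e i) = 1) (h0 : ∀ i j : Γ, i ≠ j → f i (e j) = 0)
    {K : ℝ} (hK0 : 0 < K) (hK : ∀ (A : Finset Γ) (x : X), ‖∑ γ ∈ A, f γ x • e γ‖ ≤ K * ‖x‖)
    (D : Set X) (hD : Dense D) (hDc : Cardinal.mk ↥D ≤ Cardinal.continuum.{u}) :
    ∃ ι : Γ → ℝ, Function.Injective ι := by
  have hd : ∀ i, ∃ d : D, ‖e i - (d : X)‖ < 1 / (2 * K) := by
    intro i
    obtain ⟨d, hd, hd2⟩ := hD.exists_dist_lt (e i) (show (0:ℝ) < 1 / (2 * K) by positivity)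
    exact ⟨⟨d, hd⟩, by rwa [dist_eq_norm] at hd2⟩
  choose d hd using hd
  have hinj : Function.Injective d := by
    intro i j hij
    by_contra hne'
    have e1 : ‖e i - e j‖ < 1 / K := by
      calc ‖e i - e j‖
          = ‖(e i - (d i : X)) - (e j - (d j : X))‖ := by rw [hij]; congr 1; abel
        _ ≤ _ := norm_sub_le _ _
        _ < 1 / (2 * K) + 1 / (2 * K) := add_lt_add (hd i) (hd j)
        _ = 1 / K := by field_simp; norm_num
    have e2 := hK {i} (e i - e j)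
    rw [Finset.sum_singleton, map_sub, h1 i, h0 i j hne', sub_zero, one_smul, hn] at e2
    have e3 : K * ‖e i - e j‖ < K * (1 / K) := mul_lt_mul_of_pos_left e1 hK0
    rw [mul_one_div_cancel hK0.ne'] at e3
    linarith
  have hcard : Cardinal.lift.{0, u} (Cardinal.mk ↥D) ≤ Cardinal.lift.{u, 0} (Cardinal.mk ℝ) := by
    rw [Cardinal.mk_real, Cardinal.lift_continuum, Cardinal.lift_uzero]
    exact hDc
  obtain ⟨ι⟩ := Cardinal.lift_mk_le'.mp hcard
  exact ⟨fun i => ι (d i), ι.injective.comp hinj⟩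

lemma real_split (p r : ℝ) : |p - r| ≤ |max (max p 0 - max r 0) 0 + max (max r 0 - max p 0) 0
    + max (max (-p) 0 - max (-r) 0) 0 + max (max (-r) 0 - max (-p) 0) 0| := by
  have n1 : 0 ≤ max (max p 0 - max r 0) 0 := le_max_right _ _
  have n2 : 0 ≤ max (max r 0 - max p 0) 0 := le_max_right _ _
  have n3 : 0 ≤ max (max (-p) 0 - max (-r) 0) 0 := le_max_right _ _
  have n4 : 0 ≤ max (max (-r) 0 - max (-p) 0) 0 := le_max_right _ _
  have m1 : max p 0 - max r 0 ≤ max (max p 0 - max r 0) 0 := le_max_left _ _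
  have m2 : max r 0 - max p 0 ≤ max (max r 0 - max p 0) 0 := le_max_left _ _
  have m3 : max (-p) 0 - max (-r) 0 ≤ max (max (-p) 0 - max (-r) 0) 0 := le_max_left _ _
  have m4 : max (-r) 0 - max (-p) 0 ≤ max (max (-r) 0 - max (-p) 0) 0 := le_max_left _ _
  have hp : p = max p 0 - max (-p) 0 := by
    rcases le_total p 0 with h | h
    · rw [max_eq_right h, max_eq_left (by linarith)]; ring
    · rw [max_eq_left h, max_eq_right (by linarith)]; ring
  have hr : r = max r 0 - max (-r) 0 := by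
    rcases le_total r 0 with h | h
    · rw [max_eq_right h, max_eq_left (by linarith)]; ring
    · rw [max_eq_left h, max_eq_right (by linarith)]; ring
  rw [abs_of_nonneg (by linarith : 0 ≤ max (max p 0 - max r 0) 0 + max (max r 0 - max p 0) 0
    + max (max (-p) 0 - max (-r) 0) 0 + max (max (-r) 0 - max (-p) 0) 0)]
  rw [abs_le]
  constructor
  · linarith
  · linarith

end Pool.Agent.MP_786be7_an.Ins
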