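import Mathlib

set_option autoImplicit false

/-!
Automatic continuity of the coefficient functionals of an unconditional basis indexed by an
arbitrary set, from the bare definition: every vector has exactly one unconditionally convergent
expansion.
-/

open Filter Topology
open scoped ENNReal

namespace Pool.Agent.MP_786be7_an.Ins

universe u v

variable {X : Type u} [NormedAddCommGroup X] [NormedSpace ℝ X]
  {Γ : Type v} (e : Γ → X)

/-- the coefficients of `x` -/
noncomputable def cf (hb : ∀ x : X, ∃! a : Γ → ℝ, HasSum (fun γ => a γ • e γ) x) (x : X) :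
    Γ → ℝ := (hb x).choose

lemma cf_hasSum (hb : ∀ x : X, ∃! a : Γ → ℝ, HasSum (fun γ => a γ • e γ) x) (x : X) :
    HasSum (fun γ => cf e hb x γ • e γ) x := (hb x).choose_spec.1

lemma cf_unique (hb : ∀ x : X, ∃! a : Γ → ℝ, HasSum (fun γ => a γ • e γ) x) (x : X)
    (a : Γ → ℝ) (ha : HasSum (fun γ => a γ • e γ) x) : a = cf e hb x :=
  (hb x).choose_spec.2 a ha

lemma cf_add (hb : ∀ x : X, ∃! a : Γ → ℝ, HasSum (fun γ => a γ • e γ) x) (x y : X) :
    cf e hb (x + y) = cf e hb x + cf e hb y := by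
  symm
  apply cf_unique
  have := (cf_hasSum e hb x).add (cf_hasSum e hb y)
  simpa [add_smul] using this

lemma cf_smul (hb : ∀ x : X, ∃! a : Γ → ℝ, HasSum (fun γ => a γ • e γ) x) (c : ℝ) (x : X) :
    cf e hb (c • x) = c • cf e hb x := by
  symm
  apply cf_unique
  have := (cf_hasSum e hb x).const_smul c
  simpa [smul_smul] using this

open Classical in
lemma cf_basis (hb : ∀ x : X, ∃! a : Γ → ℝ, HasSum (fun γ => a γ • e γ) x) (γ : Γ) :
    cf e hb (e γ) = fun i => if i = γ then 1 else 0 := by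
  symm
  apply cf_unique
  have := hasSum_single (f := fun i => (if i = γ then (1:ℝ) else 0) • e i) γ
    (fun j hj => by simp [hj])
  simpa using this

lemma basis_ne_zero (hb : ∀ x : X, ∃! a : Γ → ℝ, HasSum (fun γ => a γ • e γ) x) (γ : Γ) :
    e γ ≠ 0 := by
  intro h
  have h1 := cf_basis e hb γ
  have h2 : (0 : Γ → ℝ) = cf e hb (e γ) := by
    apply cf_unique
    rw [h]
    simp
  rw [h1] at h2
  have := congrFun h2 γ
  simp at this

variable [CompleteSpace X]

/-- bounded partial sums -/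
lemma cf_bdd (hb : ∀ x : X, ∃! a : Γ → ℝ, HasSum (fun γ => a γ • e γ) x) (x : X) :
    Memℓp (fun A : Finset Γ => ∑ γ ∈ A, cf e hb x γ • e γ) ∞ := by
  classical
  apply memℓp_infty
  obtain ⟨s, hs'⟩ := (summable_iff_vanishing_norm.mp (cf_hasSum e hb x).summable) 1 one_pos
  refine ⟨(∑ γ ∈ s, ‖cf e hb x γ • e γ‖) + 1, ?_⟩
  rintro _ ⟨A, rfl⟩
  show ‖∑ γ ∈ A, cf e hb x γ • e γ‖ ≤ _
  rw [← Finset.sum_inter_add_sum_sdiff A s]
  refine (norm_add_le _ _).trans (add_le_add ?_ ?_)
  · refine (norm_sum_le _ _).trans ?_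
    exact Finset.sum_le_sum_of_subset_of_nonneg Finset.inter_subset_right (fun _ _ _ => norm_nonneg _)
  · exact (hs' _ Finset.sdiff_disjoint).le

/-- all partial sums, as a linear map into bounded families -/
noncomputable def Phi (hb : ∀ x : X, ∃! a : Γ → ℝ, HasSum (fun γ => a γ • e γ) x) :
    X →ₗ[ℝ] lp (fun _ : Finset Γ => X) ∞ where
  toFun x := ⟨fun A => ∑ γ ∈ A, cf e hb x γ • e γ, cf_bdd e hb x⟩
  map_add' x y := by
    ext A
    simp only [lp.coeFn_add, Pi.add_apply, cf_add, add_smul, Finset.sum_add_distrib]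
  map_smul' c x := by
    ext A
    simp only [lp.coeFn_smul, Pi.smul_apply, cf_smul, RingHom.id_apply, Finset.smul_sum,
      smul_smul, smul_eq_mul]

lemma Phi_apply (hb : ∀ x : X, ∃! a : Γ → ℝ, HasSum (fun γ => a γ • e γ) x) (x : X)
    (A : Finset Γ) : Phi e hb x A = ∑ γ ∈ A, cf e hb x γ • e γ := rfl

lemma Phi_continuous (hb : ∀ x : X, ∃! a : Γ → ℝ, HasSum (fun γ => a γ • e γ) x) :
    Continuous (Phi e hb) := by
  apply LinearMap.continuous_of_seq_closed_graph
  intro u x g hu hg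
  -- convergence of the partial sums
  have hA : ∀ A : Finset Γ, Tendsto (fun n => ∑ γ ∈ A, cf e hb (u n) γ • e γ) atTop (𝓝 (g A)) := by
    intro A
    rw [tendsto_iff_norm_sub_tendsto_zero]
    rw [tendsto_iff_norm_sub_tendsto_zero] at hg
    apply squeeze_zero (fun n => norm_nonneg _) _ hg
    intro n
    have := lp.norm_apply_le_norm (p := ∞) ENNReal.top_ne_zero ((Phi e hb ∘ u) n - g) A
    exact this
  have hγ : ∀ γ, ∃ b : ℝ, Tendsto (fun n => cf e hb (u n) γ) atTop (𝓝 b) := by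
    intro γ
    have h1 := hA {γ}
    simp only [Finset.sum_singleton] at h1
    have h2 : CauchySeq (fun n => cf e hb (u n) γ • e γ) := h1.cauchySeq
    have h3 : CauchySeq (fun n => cf e hb (u n) γ) := by
      rw [Metric.cauchySeq_iff] at h2 ⊢
      intro ε hε
      have hne : 0 < ‖e γ‖ := norm_pos_iff.mpr (basis_ne_zero e hb γ)
      obtain ⟨N, hN⟩ := h2 (ε * ‖e γ‖) (by positivity)
      refine ⟨N, fun m hm n hn => ?_⟩
      have := hN m hm n hn
      rw [dist_eq_norm, ← sub_smul, norm_smul] at this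
      rw [dist_eq_norm]
      exact lt_of_mul_lt_mul_right this hne.le
    exact cauchySeq_tendsto_of_complete h3
  choose b hbγ using hγ
  have hgA : ∀ A : Finset Γ, g A = ∑ γ ∈ A, b γ • e γ := by
    intro A
    apply tendsto_nhds_unique (hA A)
    apply tendsto_finsetSum
    intro γ _
    exact (hbγ γ).smul_const _
  have hsum : HasSum (fun γ => b γ • e γ) x := by
    rw [HasSum, SummationFilter.unconditional_filter, Metric.tendsto_nhds]
    intro ε hε
    rw [Filter.eventually_atTop]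
    obtain ⟨n1, hn1⟩ := (Metric.tendsto_atTop.mp hu) (ε / 3) (by positivity)
    obtain ⟨n2, hn2⟩ := (Metric.tendsto_atTop.mp hg) (ε / 3) (by positivity)
    set n := max n1 n2 with hn
    have k1 := hn1 n (le_max_left _ _)
    have k2 := hn2 n (le_max_right _ _)
    have h3 := cf_hasSum e hb (u n)
    rw [HasSum, SummationFilter.unconditional_filter, Metric.tendsto_nhds] at h3
    have h3' := h3 (ε / 3) (by positivity)
    rw [Filter.eventually_atTop] at h3'
    obtain ⟨A0, hA0⟩ := h3'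
    refine ⟨A0, fun A hAA => ?_⟩
    have k3 := hA0 A hAA
    have k4 : ‖(Phi e hb (u n)) A - g A‖ ≤ dist ((Phi e hb ∘ u) n) g := by
      rw [dist_eq_norm]
      exact lp.norm_apply_le_norm (p := ∞) ENNReal.top_ne_zero ((Phi e hb ∘ u) n - g) A
    rw [Phi_apply, hgA] at k4
    rw [dist_eq_norm] at k1 k3 ⊢
    have k5 : ∑ γ ∈ A, b γ • e γ - x = -(∑ γ ∈ A, cf e hb (u n) γ • e γ - ∑ γ ∈ A, b γ • e γ)
        + (∑ γ ∈ A, cf e hb (u n) γ • e γ - u n) + (u n - x) := by abel
    rw [k5]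
    refine lt_of_le_of_lt ((norm_add_le _ _).trans (add_le_add ((norm_add_le _ _).trans
      (add_le_add (norm_neg _).le le_rfl)) le_rfl)) ?_
    linarith
  have hbx := cf_unique e hb x b hsum
  ext A
  rw [hgA, Phi_apply, hbx]

/-- from the bare definition of an unconditional basis to a normalised basis with its
(continuous, biorthogonal) coefficient functionals -/
theorem exists_normalised (hb : ∀ x : X, ∃! a : Γ → ℝ, HasSum (fun γ => a γ • e γ) x) :
    ∃ (e' : Γ → X) (f : Γ → X →L[ℝ] ℝ), (∀ i, ‖e' i‖ = 1) ∧ (∀ i, f i (e' i) = 1) ∧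
      (∀ i j, i ≠ j → f i (e' j) = 0) ∧ ∀ x, HasSum (fun γ => f γ x • e' γ) x := by
  classical
  have hne : ∀ γ, 0 < ‖e γ‖ := fun γ => norm_pos_iff.mpr (basis_ne_zero e hb γ)
  let Φ : X →L[ℝ] lp (fun _ : Finset Γ => X) ∞ := ⟨Phi e hb, Phi_continuous e hb⟩
  have hbound : ∀ γ x, ‖cf e hb x γ * ‖e γ‖‖ ≤ ‖Φ‖ * ‖x‖ := by
    intro γ x
    have h1 := lp.norm_apply_le_norm (p := ∞) ENNReal.top_ne_zero (Phi e hb x) {γ}
    rw [Phi_apply, Finset.sum_singleton, norm_smul] at h1
    have h2 : ‖Phi e hb x‖ ≤ ‖Φ‖ * ‖x‖ := Φ.le_opNorm x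
    rw [norm_mul, norm_norm]
    exact h1.trans h2
  let f : Γ → X →L[ℝ] ℝ := fun γ => LinearMap.mkContinuous
    { toFun := fun x => cf e hb x γ * ‖e γ‖
      map_add' := fun x y => by rw [cf_add, Pi.add_apply, add_mul]
      map_smul' := fun c x => by rw [cf_smul, Pi.smul_apply, smul_eq_mul, RingHom.id_apply,
        smul_eq_mul, mul_assoc] } ‖Φ‖ (fun x => hbound γ x)
  have hf : ∀ γ x, f γ x = cf e hb x γ * ‖e γ‖ := fun γ x => rfl
  refine ⟨fun γ => ‖e γ‖⁻¹ • e γ, f, fun i => ?_, fun i => ?_, fun i j hij => ?_, fun x => ?_⟩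
  · rw [norm_smul, norm_inv, norm_norm, inv_mul_cancel₀ (hne i).ne']
  · show f i (‖e i‖⁻¹ • e i) = 1
    rw [map_smul, hf, cf_basis]
    beta_reduce
    rw [if_pos rfl, one_mul, smul_eq_mul, inv_mul_cancel₀ (hne i).ne']
  · show f i (‖e j‖⁻¹ • e j) = 0
    rw [map_smul, hf, cf_basis]
    beta_reduce
    rw [if_neg hij, zero_mul, smul_zero]
  · have h := cf_hasSum e hb x
    have h2 : (fun γ => f γ x • ‖e γ‖⁻¹ • e γ) = fun γ => cf e hb x γ • e γ := by
      funext γ
      rw [hf, smul_smul, mul_assoc, mul_inv_cancel₀ (hne γ).ne', mul_one]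
    rw [h2]
    exact h

end Pool.Agent.MP_786be7_an.Ins
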