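import Mathlib

set_option autoImplicit false

/-!
Smoothing by a product of one-dimensional `C^∞` densities supported in `[-q/2, q/2]`.
-/

open MeasureTheory
open scoped Convolution ENNReal

namespace Pool.Agent.MP_786be7_an.Ins

/-- a bump function at `0` of outer radius `q / 2` -/
noncomputable def bump (q : ℝ) (hq : 0 < q) : ContDiffBump (0 : ℝ) where
  rIn := q / 4
  rOut := q / 2
  rIn_pos := by positivity
  rIn_lt_rOut := by linarith

/-- the normalised `C^∞` density with support in `[-q/2, q/2]` -/
noncomputable def rho (q : ℝ) (hq : 0 < q) : ℝ → ℝ := (bump q hq).normed volume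

lemma rho_nonneg (q : ℝ) (hq : 0 < q) (x : ℝ) : 0 ≤ rho q hq x := (bump q hq).nonneg_normed x

lemma rho_contDiff (q : ℝ) (hq : 0 < q) (n : ℕ∞) : ContDiff ℝ n (rho q hq) :=
  (bump q hq).contDiff_normed

lemma rho_continuous (q : ℝ) (hq : 0 < q) : Continuous (rho q hq) :=
  (bump q hq).continuous_normed

lemma rho_integral (q : ℝ) (hq : 0 < q) : ∫ x, rho q hq x = 1 := (bump q hq).integral_normed

lemma rho_integrable (q : ℝ) (hq : 0 < q) : Integrable (rho q hq) := (bump q hq).integrable_normed

lemma rho_support (q : ℝ) (hq : 0 < q) {x : ℝ} (hx : rho q hq x ≠ 0) : |x| < q / 2 := by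
  have h : x ∈ Function.support (rho q hq) := hx
  unfold rho at h
  rw [(bump q hq).support_normed_eq, Metric.mem_ball, Real.dist_eq, sub_zero] at h
  exact h

/-- the probability measure with density `rho` -/
noncomputable def nu (q : ℝ) (hq : 0 < q) : Measure ℝ :=
  volume.withDensity (fun x => ENNReal.ofReal (rho q hq x))

instance nu_prob (q : ℝ) (hq : 0 < q) : IsProbabilityMeasure (nu q hq) := by
  constructor
  rw [nu, withDensity_apply _ MeasurableSet.univ, Measure.restrict_univ,
    ← ofReal_integral_eq_lintegral_ofReal (rho_integrable q hq)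
      (Filter.Eventually.of_forall (rho_nonneg q hq)), rho_integral, ENNReal.ofReal_one]

/-- truncation to `[-q/2, q/2]` -/
noncomputable def clip (q w : ℝ) : ℝ := max (-(q / 2)) (min (q / 2) w)

lemma clip_abs {q : ℝ} (hq : 0 < q) (w : ℝ) : |clip q w| ≤ q / 2 := by
  unfold clip
  rw [abs_le]
  constructor
  · exact le_max_left _ _
  · exact max_le (by linarith) (min_le_left _ _)

lemma clip_eq {q w : ℝ} (hw : |w| < q / 2) : clip q w = w := by
  unfold clip
  rw [abs_lt] at hw
  rw [min_eq_right hw.2.le, max_eq_right hw.1.le]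

lemma clip_continuous (q : ℝ) : Continuous (clip q) := by
  unfold clip
  fun_prop

section pi

variable {ι : Type*} [Fintype ι] (q : ℝ) (hq : 0 < q)

/-- the product density -/
noncomputable def Rho (w : ι → ℝ) : ℝ := ∏ i, rho q hq (w i)

lemma Rho_nonneg (w : ι → ℝ) : 0 ≤ Rho q hq w := Finset.prod_nonneg fun _ _ => rho_nonneg q hq _

lemma Rho_contDiff (n : ℕ∞) : ContDiff ℝ n (Rho (ι := ι) q hq) := by
  unfold Rho
  apply contDiff_prod
  intro i _
  exact (rho_contDiff q hq n).comp (contDiff_apply ℝ ℝ i)

lemma Rho_support {w : ι → ℝ} (hw : Rho q hq w ≠ 0) (i : ι) : |w i| < q / 2 := by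
  apply rho_support q hq
  intro h
  exact hw (Finset.prod_eq_zero (Finset.mem_univ i) h)

lemma Rho_compact : HasCompactSupport (Rho (ι := ι) q hq) := by
  apply HasCompactSupport.intro (K := Set.pi Set.univ fun _ : ι => Set.Icc (-(q / 2)) (q / 2))
  · exact isCompact_univ_pi fun _ => isCompact_Icc
  · intro w hw
    by_contra h
    apply hw
    intro i _
    have := Rho_support q hq h i
    rw [abs_lt] at this
    exact ⟨this.1.le, this.2.le⟩

lemma pi_nu : Measure.pi (fun _ : ι => nu q hq)
    = (volume : Measure (ι → ℝ)).withDensity (fun w => ENNReal.ofReal (Rho q hq w)) := by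
  apply Measure.pi_eq
  intro s hs
  have hRi : Integrable (Rho (ι := ι) q hq) :=
    (Rho_contDiff q hq 0).continuous.integrable_of_hasCompactSupport (Rho_compact q hq)
  rw [withDensity_apply _ (MeasurableSet.univ_pi hs),
    ← ofReal_integral_eq_lintegral_ofReal hRi.restrict
      (Filter.Eventually.of_forall (Rho_nonneg q hq)),
    volume_pi, Measure.restrict_pi_pi]
  unfold Rho
  rw [integral_fintype_prod_eq_prod (f := fun _ : ι => rho q hq),
    ENNReal.ofReal_prod_of_nonneg]
  · apply Finset.prod_congr rfl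
    intro i _
    rw [nu, withDensity_apply _ (hs i),
      ofReal_integral_eq_lintegral_ofReal (rho_integrable q hq).restrict
        (Filter.Eventually.of_forall (rho_nonneg q hq))]
  · intro i _
    exact integral_nonneg (rho_nonneg q hq)

lemma smooth_aux (h : (ι → ℝ) → ℝ) (x : ι → ℝ) :
    ∫ w, h (fun i => x i - clip q (w i)) ∂(Measure.pi fun _ : ι => nu q hq)
      = (Rho q hq ⋆[ContinuousLinearMap.lsmul ℝ ℝ, (volume : Measure (ι → ℝ))] h) x := by
  have hm : Measurable (fun w : ι → ℝ => ENNReal.ofReal (Rho q hq w)) :=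
    ENNReal.measurable_ofReal.comp (Rho_contDiff q hq 0).continuous.measurable
  rw [pi_nu, integral_withDensity_eq_integral_toReal_smul hm
    (Filter.Eventually.of_forall fun _ => ENNReal.ofReal_lt_top)]
  unfold convolution
  congr 1
  funext w
  rw [ENNReal.toReal_ofReal (Rho_nonneg q hq w)]
  simp only [ContinuousLinearMap.lsmul_apply]
  by_cases hw : Rho q hq w = 0
  · rw [hw, zero_smul, zero_smul]
  · congr 2
    funext i
    rw [clip_eq (Rho_support q hq hw i)]
    rfl

/-- averaging a continuous function over the product density gives a `C^∞` function -/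
lemma smooth (h : (ι → ℝ) → ℝ) (hh : Continuous h) :
    ContDiff ℝ (⊤ : ℕ∞) (fun x : ι → ℝ =>
      ∫ w, h (fun i => x i - clip q (w i)) ∂(Measure.pi fun _ : ι => nu q hq)) := by
  have : (fun x : ι → ℝ =>
      ∫ w, h (fun i => x i - clip q (w i)) ∂(Measure.pi fun _ : ι => nu q hq))
      = (Rho q hq ⋆[ContinuousLinearMap.lsmul ℝ ℝ, (volume : Measure (ι → ℝ))] h) := by
    funext x
    exact smooth_aux q hq h x
  rw [this]
  exact (Rho_compact q hq).contDiff_convolution_left _ (Rho_contDiff q hq _)
    hh.locallyIntegrable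

end pi

end Pool.Agent.MP_786be7_an.Ins
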