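import Pool.Agent.Lib.MP_786be7_an.Ins.Basic
import Pool.Agent.Lib.MP_786be7_an.Ins.Smooth

set_option autoImplicit false

/-!
The coordinate functions `G` of the embedding: the mean of the norm of a randomly perturbed and
thresholded vector.
-/

open MeasureTheory
open scoped ENNReal

namespace Pool.Agent.MP_786be7_an.Ins

universe u v

/-- thresholded coordinate -/
noncomputable def th {Γ : Type v} (s : ℝ) (t : Γ → ℝ) (γ : Γ) (r : ℝ) : ℝ := max (s * r - t γ) 0

section th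

variable {Γ : Type v} {s : ℝ} {t : Γ → ℝ}

lemma th_nonneg (γ : Γ) (r : ℝ) : 0 ≤ th s t γ r := le_max_right _ _

lemma th_continuous (s : ℝ) (t : Γ → ℝ) (γ : Γ) : Continuous (th s t γ) := by
  unfold th
  fun_prop

lemma th_lip (hs : |s| ≤ 1) (γ : Γ) (r r' : ℝ) : |th s t γ r - th s t γ r'| ≤ |r - r'| := by
  unfold th
  refine (abs_max_sub_max_le_abs _ _ _).trans ?_
  have : s * r - t γ - (s * r' - t γ) = s * (r - r') := by ring
  rw [this, abs_mul]
  exact mul_le_of_le_one_left (abs_nonneg _) hs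

lemma mul_le_abs (hs : |s| ≤ 1) (r : ℝ) : s * r ≤ |r| :=
  (le_abs_self _).trans (by rw [abs_mul]; exact mul_le_of_le_one_left (abs_nonneg _) hs)

lemma th_zero {q : ℝ} (hs : |s| ≤ 1) (γ : Γ) (ht : q ≤ t γ) {r : ℝ} (hr : |r| ≤ q) :
    th s t γ r = 0 := by
  unfold th
  apply max_eq_right
  have := mul_le_abs hs r
  linarith

lemma th_zero' {q : ℝ} (hq : 0 < q) (hs : |s| ≤ 1) (γ : Γ) (ht : q ≤ t γ) {r : ℝ}
    (hr : |r| ≤ q / 2) (w : ℝ) : th s t γ (r - clip q w) = 0 := by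
  apply th_zero hs γ ht
  have h1 := clip_abs hq w
  have h2 := abs_sub r (clip q w)
  linarith

lemma th_le {q : ℝ} (hq : 0 < q) (hs : |s| ≤ 1) (γ : Γ) (ht : q ≤ t γ) (r : ℝ) (w : ℝ) :
    |th s t γ (r - clip q w)| ≤ |r| := by
  rw [abs_of_nonneg (th_nonneg _ _)]
  unfold th
  apply max_le _ (abs_nonneg _)
  have h1 := clip_abs hq w
  have h2 := mul_le_abs hs (r - clip q w)
  have h3 := abs_sub r (clip q w)
  linarith

end th

section main

variable {X : Type u} [NormedAddCommGroup X] [NormedSpace ℝ X]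
  {Γ : Type v} (e : Γ → X) (f : Γ → X →L[ℝ] ℝ)

/-- the perturbed and thresholded vector -/
noncomputable def V (q s : ℝ) (t : Γ → ℝ) (x : X) (w : Γ → ℝ) : X :=
  ∑' γ, th s t γ (f γ x - clip q (w γ)) • e γ

/-- the mean of the norm of the perturbed and thresholded vector -/
noncomputable def G (q : ℝ) (hq : 0 < q) (s : ℝ) (t : Γ → ℝ) (x : X) : ℝ :=
  ∫ w, ‖V e f q s t x w‖ ∂(Measure.infinitePi fun _ : Γ => nu q hq)

/-- the norm of a thresholded vector as a function of finitely many coordinates -/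
noncomputable def hS (s : ℝ) (t : Γ → ℝ) (A : Finset Γ) (v : A → ℝ) : ℝ :=
  ‖∑ γ : A, th s t (γ : Γ) (v γ) • e γ‖

lemma hS_continuous (s : ℝ) (t : Γ → ℝ) (A : Finset Γ) : Continuous (hS e s t A) := by
  unfold hS
  apply Continuous.norm
  apply continuous_finsetSum
  intro γ _
  exact ((th_continuous s t (γ : Γ)).comp (continuous_apply γ)).smul continuous_const

variable {q : ℝ} (hq : 0 < q) {s : ℝ} (hs1 : |s| ≤ 1) {t : Γ → ℝ} (ht : ∀ γ, q ≤ t γ)

include hq hs1 ht in
lemma V_norm (x : X) (A : Finset Γ) (hA : ∀ γ, γ ∉ A → |f γ x| ≤ q / 2) (w : Γ → ℝ) :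
    ‖V e f q s t x w‖ = hS e s t A (fun γ => f γ x - clip q (w γ)) := by
  unfold V hS
  rw [tsum_eq_sum (s := A)]
  · rw [← Finset.sum_coe_sort A (fun γ => th s t γ (f γ x - clip q (w γ)) • e γ)]
  · intro γ hγ
    rw [th_zero' hq hs1 γ (ht γ) (hA γ hγ), zero_smul]

include hs1 ht in
lemma G_eq (x : X) (A : Finset Γ) (hA : ∀ γ, γ ∉ A → |f γ x| ≤ q / 2) :
    G e f q hq s t x = ∫ w, hS e s t A (fun γ => f γ x - clip q (w γ))
      ∂(Measure.pi fun _ : A => nu q hq) := by
  unfold G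
  have hc : Continuous (fun w : A → ℝ => hS e s t A (fun γ => f γ x - clip q (w γ))) := by
    apply (hS_continuous e s t A).comp
    apply continuous_pi
    intro γ
    exact continuous_const.sub ((clip_continuous q).comp (continuous_apply γ))
  rw [← integral_restrict_infinitePi (μ := fun _ : Γ => nu q hq)
    (f := fun w : A → ℝ => hS e s t A (fun γ => f γ x - clip q (w γ)))
    hc.measurable.aestronglyMeasurable]
  congr 1
  funext w
  rw [V_norm e f hq hs1 ht x A hA w]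
  rfl

include hq hs1 ht in
lemma V_meas (x : X) (A : Finset Γ) (hA : ∀ γ, γ ∉ A → |f γ x| ≤ q / 2) :
    AEStronglyMeasurable (fun w => ‖V e f q s t x w‖) (Measure.infinitePi fun _ : Γ => nu q hq) := by
  have hc : Continuous (fun w : A → ℝ => hS e s t A (fun γ => f γ x - clip q (w γ))) := by
    apply (hS_continuous e s t A).comp
    apply continuous_pi
    intro γ
    exact continuous_const.sub ((clip_continuous q).comp (continuous_apply γ))
  have h2 : Measurable (fun w : Γ → ℝ => (fun w : A → ℝ => hS e s t A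
      (fun γ => f γ x - clip q (w γ))) (A.restrict w)) :=
    hc.measurable.comp (Finset.measurable_restrict A)
  have h3 : (fun w => ‖V e f q s t x w‖) = (fun w : Γ → ℝ => (fun w : A → ℝ => hS e s t A
      (fun γ => f γ x - clip q (w γ))) (A.restrict w)) := by
    funext w
    rw [V_norm e f hq hs1 ht x A hA w]
    rfl
  rw [h3]
  exact h2.aestronglyMeasurable

variable (hn : ∀ i, ‖e i‖ = 1)
    (hs : ∀ x : X, HasSum (fun γ : Γ => f γ x • e γ) x)

include hn hs in
lemma fin_supp (x : X) {r : ℝ} (hr : 0 < r) : ∃ A : Finset Γ, ∀ γ, γ ∉ A → |f γ x| ≤ r := by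
  have h1 := (hs x).summable.tendsto_cofinite_zero
  have h2 : ∀ᶠ γ in Filter.cofinite, ‖f γ x • e γ‖ < r := by
    have := (h1.norm).eventually_lt_const (by simpa using hr)
    exact this
  rw [Filter.eventually_cofinite] at h2
  refine ⟨h2.toFinset, fun γ hγ => ?_⟩
  rw [Set.Finite.mem_toFinset, Set.mem_ofPred_eq, not_not, norm_smul, hn, mul_one,
    Real.norm_eq_abs] at hγ
  exact hγ.le

variable [CompleteSpace X]
    {C : ℝ} (hC0 : 0 < C)
    (hC : ∀ (A : Finset Γ) (a b : Γ → ℝ), (∀ γ ∈ A, |a γ| ≤ |b γ|) →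
      ‖∑ γ ∈ A, a γ • e γ‖ ≤ C * ‖∑ γ ∈ A, b γ • e γ‖)

include hs hC0 hC hq hs1 ht in
lemma V_summable (x : X) (w : Γ → ℝ) :
    Summable (fun γ => th s t γ (f γ x - clip q (w γ)) • e γ) :=
  (dom_summable e f hs hC0 hC x _ (fun γ => th_le hq hs1 γ (ht γ) (f γ x) (w γ))).1

include hs hC0 hC hq hs1 ht in
lemma V_bound (x : X) (w : Γ → ℝ) : ‖V e f q s t x w‖ ≤ C * ‖x‖ :=
  (dom_summable e f hs hC0 hC x _ (fun γ => th_le hq hs1 γ (ht γ) (f γ x) (w γ))).2

include hs hC0 hC hq hs1 ht in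
lemma V_lip (x y : X) (w : Γ → ℝ) : ‖V e f q s t x w - V e f q s t y w‖ ≤ C * ‖x - y‖ := by
  unfold V
  rw [← (V_summable e f hq hs1 ht hs hC0 hC x w).tsum_sub (V_summable e f hq hs1 ht hs hC0 hC y w)]
  simp_rw [← sub_smul]
  refine (dom_summable e f hs hC0 hC (x - y) _ (fun γ => ?_)).2
  rw [map_sub]
  refine (th_lip hs1 γ _ _).trans ?_
  rw [sub_sub_sub_cancel_right]

include hn hs hC0 hC hq hs1 ht in
lemma V_integrable (x : X) :
    Integrable (fun w => ‖V e f q s t x w‖) (Measure.infinitePi fun _ : Γ => nu q hq) := by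
  obtain ⟨A, hA⟩ := fin_supp e f hn hs x (show 0 < q / 2 by positivity)
  apply Integrable.of_bound (V_meas e f hq hs1 ht x A hA) (C * ‖x‖)
  apply Filter.Eventually.of_forall
  intro w
  rw [norm_norm]
  exact V_bound e f hq hs1 ht hs hC0 hC x w

include hn hs hC0 hC hs1 ht in
lemma G_lip (x y : X) : |G e f q hq s t x - G e f q hq s t y| ≤ C * ‖x - y‖ := by
  unfold G
  rw [← integral_sub (V_integrable e f hq hs1 ht hn hs hC0 hC x)
    (V_integrable e f hq hs1 ht hn hs hC0 hC y), ← Real.norm_eq_abs]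
  have h := norm_integral_le_of_norm_le_const (μ := Measure.infinitePi fun _ : Γ => nu q hq)
    (f := fun w => ‖V e f q s t x w‖ - ‖V e f q s t y w‖) (C := C * ‖x - y‖)
    (Filter.Eventually.of_forall (fun w => by
      rw [Real.norm_eq_abs]
      exact (abs_norm_sub_norm_le _ _).trans (V_lip e f hq hs1 ht hs hC0 hC x y w)))
  simpa using h

include hn hs hC0 hC hs1 ht in
lemma G_le (x : X) {c : ℝ} (hc : ∀ w, ‖V e f q s t x w‖ ≤ c) : G e f q hq s t x ≤ c := by
  unfold G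
  have h := integral_mono (V_integrable e f hq hs1 ht hn hs hC0 hC x)
    (integrable_const (μ := Measure.infinitePi fun _ : Γ => nu q hq) c) (fun w => hc w)
  simpa using h

include hn hs hC0 hC hs1 ht in
lemma le_G (x : X) {c : ℝ} (hc : ∀ w, c ≤ ‖V e f q s t x w‖) : c ≤ G e f q hq s t x := by
  unfold G
  have h := integral_mono (integrable_const (μ := Measure.infinitePi fun _ : Γ => nu q hq) c)
    (V_integrable e f hq hs1 ht hn hs hC0 hC x) (fun w => hc w)
  simpa using h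

omit [CompleteSpace X] in
lemma G_nonneg (x : X) : 0 ≤ G e f q hq s t x := by
  unfold G
  exact integral_nonneg (fun w => norm_nonneg _)

include hn hs hC0 hC hs1 ht in
lemma G_zero : G e f q hq s t (0 : X) = 0 := by
  apply le_antisymm _ (G_nonneg e f hq 0)
  apply G_le e f hq hs1 ht hn hs hC0 hC
  intro w
  have := V_bound e f hq hs1 ht hs hC0 hC (0 : X) w
  rwa [norm_zero, mul_zero] at this

omit [CompleteSpace X] in
include hn hs hC0 hs1 ht in
/-- `G` is `C^∞` -/
lemma G_contDiff (hK : ∀ (A : Finset Γ) (x : X), ‖∑ γ ∈ A, f γ x • e γ‖ ≤ C * ‖x‖) :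
    ContDiff ℝ (⊤ : ℕ∞) (G e f q hq s t) := by
  rw [contDiff_iff_contDiffAt]
  intro x0
  obtain ⟨A, hA⟩ := fin_supp e f hn hs x0 (show 0 < q / 4 by positivity)
  have hfγ : ∀ γ (z : X), |f γ z| ≤ C * ‖z‖ := by
    intro γ z
    have := hK {γ} z
    rwa [Finset.sum_singleton, norm_smul, hn, mul_one, Real.norm_eq_abs] at this
  have hnear : ∀ x ∈ Metric.ball x0 (q / (4 * C)), ∀ γ, γ ∉ A → |f γ x| ≤ q / 2 := by
    intro x hx γ hγ
    rw [Metric.mem_ball, dist_eq_norm] at hx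
    have h1 := hA γ hγ
    have h2 := hfγ γ (x - x0)
    have h3 : C * ‖x - x0‖ ≤ q / 4 := by
      calc C * ‖x - x0‖ ≤ C * (q / (4 * C)) := mul_le_mul_of_nonneg_left hx.le hC0.le
        _ = q / 4 := by field_simp
    have h4 : f γ x = f γ x0 + f γ (x - x0) := by rw [map_sub]; ring
    rw [h4]
    refine (abs_add_le _ _).trans ?_
    linarith
  have hsm : ContDiff ℝ (⊤ : ℕ∞) (fun x : X => (fun u : A → ℝ => ∫ w, hS e s t A
      (fun γ => u γ - clip q (w γ)) ∂(Measure.pi fun _ : A => nu q hq)) (fun γ : A => f γ x)) := by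
    have h1 := smooth (ι := A) q hq (hS e s t A) (hS_continuous e s t A)
    apply h1.comp
    rw [contDiff_pi]
    intro γ
    exact (f (γ : Γ)).contDiff
  apply hsm.contDiffAt.congr_of_eventuallyEq
  filter_upwards [Metric.ball_mem_nhds x0 (show 0 < q / (4 * C) by positivity)] with x hx
  exact G_eq e f hq hs1 ht x A (hnear x hx)

include hn hs hC0 hC hs1 ht in
lemma G_upper (h0 : ∀ i j : Γ, i ≠ j → f i (e j) = 0) (y : X) (F : Finset Γ)
    (hF : ∀ γ ∈ F, s * f γ y + q / 2 ≤ t γ) :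
    G e f q hq s t y ≤ C * ‖y - ∑ γ ∈ F, f γ y • e γ‖ := by
  apply G_le e f hq hs1 ht hn hs hC0 hC
  intro w
  refine (dom_summable e f hs hC0 hC (y - ∑ γ ∈ F, f γ y • e γ) _ (fun γ => ?_)).2
  by_cases hγ : γ ∈ F
  · have h1 : th s t γ (f γ y - clip q (w γ)) = 0 := by
      unfold th
      apply max_eq_right
      have h2 := hF γ hγ
      have h3 : s * (f γ y - clip q (w γ)) = s * f γ y + s * (- clip q (w γ)) := by ring
      have h4 := mul_le_abs hs1 (- clip q (w γ))
      rw [abs_neg] at h4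
      have h5 := clip_abs hq (w γ)
      rw [h3]
      linarith
    rw [h1, abs_zero]
    exact abs_nonneg _
  · have hout : f γ (y - ∑ γ ∈ F, f γ y • e γ) = f γ y := by
      rw [map_sub, map_sum, Finset.sum_eq_zero, sub_zero]
      intro i hi
      have : γ ≠ i := fun hh => hγ (hh ▸ hi)
      simp [h0 γ i this]
    rw [hout]
    exact th_le hq hs1 γ (ht γ) (f γ y) (w γ)

include hn hs hC0 hC hs1 ht in
lemma G_lower (h1 : ∀ i : Γ, f i (e i) = 1) (h0 : ∀ i j : Γ, i ≠ j → f i (e j) = 0)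
    (hK : ∀ (A : Finset Γ) (x : X), ‖∑ γ ∈ A, f γ x • e γ‖ ≤ C * ‖x‖)
    (x : X) (F : Finset Γ) (v : Γ → ℝ) {κ : ℝ} (hκ : 0 ≤ κ)
    (hv : ∀ γ ∈ F, 0 ≤ v γ ∧ ∀ c : ℝ, |c| ≤ q / 2 → v γ ≤ th s t γ (f γ x - c) + κ) :
    ‖∑ γ ∈ F, v γ • e γ‖ ≤ C * (C * G e f q hq s t x + κ * F.card) := by
  classical
  have hlow : ∀ w, (‖∑ γ ∈ F, v γ • e γ‖ / C - κ * F.card) / C ≤ ‖V e f q s t x w‖ := by
    intro w
    have hcoord : ∀ γ, f γ (V e f q s t x w) = th s t γ (f γ x - clip q (w γ)) := by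
      intro γ
      have hsum := V_summable e f hq hs1 ht hs hC0 hC x w
      have h2 := (f γ).hasSum hsum.hasSum
      have h3 : HasSum (fun i => f γ (th s t i (f i x - clip q (w i)) • e i))
          (th s t γ (f γ x - clip q (w γ))) := by
        have := hasSum_single (f := fun i => f γ (th s t i (f i x - clip q (w i)) • e i)) γ
          (fun j hj => by simp [h0 γ j (Ne.symm hj)])
        simpa [h1] using this
      exact h2.unique h3
    have hKV := hK F (V e f q s t x w)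
    simp_rw [hcoord] at hKV
    have hA2 : ‖∑ γ ∈ F, v γ • e γ‖ ≤ C * ‖∑ γ ∈ F, (th s t γ (f γ x - clip q (w γ)) + κ) • e γ‖ := by
      apply hC
      intro γ hγ
      obtain ⟨hv0, hv1⟩ := hv γ hγ
      rw [abs_of_nonneg hv0, abs_of_nonneg (by have := th_nonneg (s := s) (t := t) γ (f γ x - clip q (w γ)); linarith)]
      exact hv1 _ (clip_abs hq _)
    have hsplit : ∑ γ ∈ F, (th s t γ (f γ x - clip q (w γ)) + κ) • e γ
        = ∑ γ ∈ F, th s t γ (f γ x - clip q (w γ)) • e γ + κ • ∑ γ ∈ F, e γ := by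
      rw [Finset.smul_sum, ← Finset.sum_add_distrib]
      exact Finset.sum_congr rfl (fun γ _ => add_smul _ _ _)
    have hcard : ‖κ • ∑ γ ∈ F, e γ‖ ≤ κ * F.card := by
      rw [norm_smul, Real.norm_eq_abs, abs_of_nonneg hκ]
      apply mul_le_mul_of_nonneg_left _ hκ
      refine (norm_sum_le _ _).trans ?_
      simp [hn]
    have hnorm : ‖∑ γ ∈ F, (th s t γ (f γ x - clip q (w γ)) + κ) • e γ‖ ≤
        C * ‖V e f q s t x w‖ + κ * F.card := by
      rw [hsplit]
      exact (norm_add_le _ _).trans (add_le_add hKV hcard)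
    have hA3 : ‖∑ γ ∈ F, v γ • e γ‖ ≤ C * (C * ‖V e f q s t x w‖ + κ * F.card) :=
      hA2.trans (mul_le_mul_of_nonneg_left hnorm hC0.le)
    rw [div_le_iff₀ hC0]
    have : ‖∑ γ ∈ F, v γ • e γ‖ / C ≤ C * ‖V e f q s t x w‖ + κ * F.card := by
      rw [div_le_iff₀ hC0]; linarith
    linarith
  have hG := le_G e f hq hs1 ht hn hs hC0 hC x hlow
  rw [div_le_iff₀ hC0] at hG
  have h2 : ‖∑ γ ∈ F, v γ • e γ‖ / C ≤ G e f q hq s t x * C + κ * F.card := by linarith
  rw [div_le_iff₀ hC0] at h2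
  linarith

end main

end Pool.Agent.MP_786be7_an.Ins
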