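import Pool.Agent.Lib.MP_786be7_an.Ins.Main

set_option autoImplicit false

/-!
The countable family of functions `G` separates the points of the space by a fixed multiple of the
distance; the embedding for a normalised biorthogonal system.
-/

open MeasureTheory
open scoped ENNReal

namespace Pool.Agent.MP_786be7_an.Ins

universe u v

/-- index set -/
abbrev J := ℕ × {q : ℚ // 0 < q} × Bool

/-- sign -/
noncomputable def sg (b : Bool) : ℝ := if b then 1 else -1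

lemma sg_abs (b : Bool) : |sg b| ≤ 1 := by cases b <;> simp [sg]

section

variable {X : Type u} [NormedAddCommGroup X] [NormedSpace ℝ X] [CompleteSpace X]
  {Γ : Type v} (e : Γ → X) (f : Γ → X →L[ℝ] ℝ) (P : ℕ → Γ → ℝ)

lemma jpos (j : J) : (0 : ℝ) < (j.2.1.1 : ℝ) := by exact_mod_cast j.2.1.2

/-- thresholds -/
noncomputable def tt (j : J) (γ : Γ) : ℝ := max (P j.1 γ) (j.2.1.1 : ℝ)

lemma tt_ge (j : J) (γ : Γ) : (j.2.1.1 : ℝ) ≤ tt P j γ := le_max_right _ _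

/-- the coordinate functions of the embedding -/
noncomputable def Gj (j : J) (x : X) : ℝ := G e f (j.2.1.1 : ℝ) (jpos j) (sg j.2.2) (tt P j) x

variable (hn : ∀ i, ‖e i‖ = 1)
    (hs : ∀ x : X, HasSum (fun γ : Γ => f γ x • e γ) x)
    {C : ℝ} (hC0 : 0 < C)
    (hC : ∀ (A : Finset Γ) (a b : Γ → ℝ), (∀ γ ∈ A, |a γ| ≤ |b γ|) →
      ‖∑ γ ∈ A, a γ • e γ‖ ≤ C * ‖∑ γ ∈ A, b γ • e γ‖)

include hn hs hC0 hC in
lemma sepA (h1 : ∀ i : Γ, f i (e i) = 1) (h0 : ∀ i j : Γ, i ≠ j → f i (e j) = 0)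
    (hK : ∀ (A : Finset Γ) (x : X), ‖∑ γ ∈ A, f γ x • e γ‖ ≤ C * ‖x‖)
    (hP : ∀ (F : Finset Γ) (v : Γ → ℝ) (ε : ℝ), 0 < ε → ∃ n, ∀ γ ∈ F, |P n γ - v γ| < ε)
    (x y : X) (σ : Bool) (F : Finset Γ) (A ε : ℝ) (hA0 : 0 < A)
    (hA : A = ‖∑ γ ∈ F, (max (max (sg σ * f γ x) 0 - max (sg σ * f γ y) 0) 0) • e γ‖)
    (hε : ‖y - ∑ γ ∈ F, f γ y • e γ‖ ≤ ε) :
    ∃ j : J, A / (2 * C ^ 2) - C * ε ≤ Gj e f P j x - Gj e f P j y := by
  classical
  set κ : ℝ := A / (2 * C * (F.card + 1)) with hκ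
  have hκ0 : 0 < κ := by positivity
  obtain ⟨q, hq1, hq2⟩ := exists_rat_btwn (show (0:ℝ) < κ / 2 by positivity)
  have hqpos : (0:ℚ) < q := by exact_mod_cast hq1
  obtain ⟨n, hn'⟩ := hP F (fun γ => max (sg σ * f γ y) 0 + κ / 2) (κ / 4) (by positivity)
  set j : J := (n, ⟨q, hqpos⟩, σ) with hj
  have htj : ∀ γ, tt P j γ = max (P n γ) (q : ℝ) := fun γ => rfl
  -- thresholds
  have ht1 : ∀ γ ∈ F, sg σ * f γ y + (q : ℝ) / 2 ≤ tt P j γ := by
    intro γ hγ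
    have := abs_lt.mp (hn' γ hγ)
    have h2 := le_max_left (sg σ * f γ y) 0
    rw [htj]
    apply le_max_of_le_left
    linarith [this.1]
  have ht2 : ∀ γ ∈ F, tt P j γ ≤ max (sg σ * f γ y) 0 + 3 * κ / 4 := by
    intro γ hγ
    have := abs_lt.mp (hn' γ hγ)
    have h2 := le_max_right (sg σ * f γ y) 0
    rw [htj]
    apply max_le
    · linarith [this.2]
    · linarith
  have hup : Gj e f P j y ≤ C * ε := by
    refine (G_upper e f (jpos j) (sg_abs σ) (tt_ge P j) hn hs hC0 hC h0 y F ht1).trans ?_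
    exact mul_le_mul_of_nonneg_left hε hC0.le
  have hlow := G_lower e f (jpos j) (sg_abs σ) (tt_ge P j) hn hs hC0 hC h1 h0 hK x F
    (fun γ => max (max (sg σ * f γ x) 0 - max (sg σ * f γ y) 0) 0) hκ0.le (by
      intro γ hγ
      refine ⟨le_max_right _ _, fun c hc => ?_⟩
      have g0 := th_nonneg (s := sg σ) (t := tt P j) γ (f γ x - c)
      have hc' : |c| ≤ (q : ℝ) / 2 := hc
      have g1 : sg σ * f γ x - (q : ℝ) / 2 - tt P j γ ≤ th (sg σ) (tt P j) γ (f γ x - c) := by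
        unfold th
        apply le_max_of_le_left
        have g3 : sg σ * (f γ x - c) = sg σ * f γ x - sg σ * c := by ring
        have g4 := mul_le_abs (sg_abs σ) c
        rw [g3]
        linarith
      have g2 := ht2 γ hγ
      have g5 : 0 ≤ max (sg σ * f γ y) 0 := le_max_right _ _
      apply max_le
      · rcases le_total (sg σ * f γ x) 0 with hx | hx
        · rw [max_eq_right hx]; linarith
        · rw [max_eq_left hx]; linarith
      · linarith)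
  rw [← hA] at hlow
  have hcard : C * (κ * F.card) ≤ A / 2 := by
    have h3 : C * (κ * (F.card + 1)) = A / 2 := by
      rw [hκ]; field_simp
    have h4 : C * (κ * F.card) ≤ C * (κ * (F.card + 1)) := by
      apply mul_le_mul_of_nonneg_left _ hC0.le
      apply mul_le_mul_of_nonneg_left _ hκ0.le
      linarith
    linarith
  have hGx : A / (2 * C ^ 2) ≤ Gj e f P j x := by
    rw [div_le_iff₀ (by positivity)]
    have h5 : A ≤ C * (C * Gj e f P j x + κ * F.card) := hlow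
    have h6 : C * (C * Gj e f P j x + κ * F.card) = C ^ 2 * Gj e f P j x + C * (κ * F.card) := by
      ring
    rw [h6] at h5
    linarith
  exact ⟨j, by linarith⟩

include hn hs hC0 hC in
lemma sep (h1 : ∀ i : Γ, f i (e i) = 1) (h0 : ∀ i j : Γ, i ≠ j → f i (e j) = 0)
    (hK : ∀ (A : Finset Γ) (x : X), ‖∑ γ ∈ A, f γ x • e γ‖ ≤ C * ‖x‖)
    (hP : ∀ (F : Finset Γ) (v : Γ → ℝ) (ε : ℝ), 0 < ε → ∃ n, ∀ γ ∈ F, |P n γ - v γ| < ε)
    (x y : X) (hxy : x ≠ y) :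
    ∃ j : J, (1 / (32 * C ^ 3)) * ‖x - y‖ ≤ |Gj e f P j x - Gj e f P j y| := by
  classical
  set δ := ‖x - y‖ with hδ
  have hδ0 : 0 < δ := norm_pos_iff.mpr (sub_ne_zero.mpr hxy)
  set ε : ℝ := min (δ / 4) (δ / (32 * C ^ 4)) with hε
  have hε0 : 0 < ε := lt_min (by positivity) (by positivity)
  have hε1 : ε ≤ δ / 4 := min_le_left _ _
  have hε2 : C * ε ≤ δ / (32 * C ^ 3) := by
    have h2 : C * ε ≤ C * (δ / (32 * C ^ 4)) := mul_le_mul_of_nonneg_left (min_le_right _ _) hC0.le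
    have h3 : C * (δ / (32 * C ^ 4)) = δ / (32 * C ^ 3) := by field_simp
    linarith
  obtain ⟨s1, hs1⟩ := (Metric.tendsto_atTop.mp (hs x)) ε hε0
  obtain ⟨s2, hs2⟩ := (Metric.tendsto_atTop.mp (hs y)) ε hε0
  set F := s1 ∪ s2 with hF
  have hx : ‖x - ∑ γ ∈ F, f γ x • e γ‖ ≤ ε := by
    have := hs1 F Finset.subset_union_left
    rw [dist_comm, dist_eq_norm] at this
    exact this.le
  have hy : ‖y - ∑ γ ∈ F, f γ y • e γ‖ ≤ ε := by
    have := hs2 F Finset.subset_union_right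
    rw [dist_comm, dist_eq_norm] at this
    exact this.le
  have hxyF : δ / 2 ≤ ‖∑ γ ∈ F, (f γ x - f γ y) • e γ‖ := by
    have e1 : x - y = (∑ γ ∈ F, (f γ x - f γ y) • e γ) + (x - ∑ γ ∈ F, f γ x • e γ)
        - (y - ∑ γ ∈ F, f γ y • e γ) := by
      have : ∑ γ ∈ F, (f γ x - f γ y) • e γ = ∑ γ ∈ F, f γ x • e γ - ∑ γ ∈ F, f γ y • e γ := by
        rw [← Finset.sum_sub_distrib]
        exact Finset.sum_congr rfl (fun γ _ => sub_smul _ _ _)
      rw [this]; abel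
    have e2 : δ ≤ ‖∑ γ ∈ F, (f γ x - f γ y) • e γ‖ + ε + ε := by
      rw [hδ]
      calc ‖x - y‖ = _ := congrArg norm e1
        _ ≤ _ := (norm_sub_le _ _).trans (add_le_add ((norm_add_le _ _).trans (add_le_add le_rfl hx)) hy)
    linarith
  set A1 : ℝ := ‖∑ γ ∈ F, (max (max (f γ x) 0 - max (f γ y) 0) 0) • e γ‖ with hA1
  set A2 : ℝ := ‖∑ γ ∈ F, (max (max (f γ y) 0 - max (f γ x) 0) 0) • e γ‖ with hA2
  set A3 : ℝ := ‖∑ γ ∈ F, (max (max (-(f γ x)) 0 - max (-(f γ y)) 0) 0) • e γ‖ with hA3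
  set A4 : ℝ := ‖∑ γ ∈ F, (max (max (-(f γ y)) 0 - max (-(f γ x)) 0) 0) • e γ‖ with hA4
  have hsumA : δ / 2 ≤ C * (A1 + A2 + A3 + A4) := by
    refine hxyF.trans ((hC F _ _ (fun γ _ => real_split (f γ x) (f γ y))).trans ?_)
    apply mul_le_mul_of_nonneg_left _ hC0.le
    simp_rw [add_smul, Finset.sum_add_distrib]
    exact (norm_add_le _ _).trans (add_le_add ((norm_add_le _ _).trans
      (add_le_add (norm_add_le _ _) le_rfl)) le_rfl)
  have hfin : ∀ A : ℝ, δ / (8 * C) ≤ A →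
      0 < A ∧ 1 / (32 * C ^ 3) * δ ≤ A / (2 * C ^ 2) - C * ε := by
    intro A hA
    have hA0 : 0 < A := lt_of_lt_of_le (by positivity) hA
    refine ⟨hA0, ?_⟩
    have k1 : (δ / (8 * C)) / (2 * C ^ 2) ≤ A / (2 * C ^ 2) :=
      div_le_div_of_nonneg_right hA (by positivity)
    have k2 : (δ / (8 * C)) / (2 * C ^ 2) = 2 * (δ / (32 * C ^ 3)) := by
      field_simp; norm_num
    have k3 : 1 / (32 * C ^ 3) * δ = δ / (32 * C ^ 3) := by ring
    rw [k3]
    linarith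
  have hcases : δ / (8 * C) ≤ A1 ∨ δ / (8 * C) ≤ A2 ∨ δ / (8 * C) ≤ A3 ∨ δ / (8 * C) ≤ A4 := by
    by_contra hcon
    push Not at hcon
    obtain ⟨c1, c2, c3, c4⟩ := hcon
    have : C * (A1 + A2 + A3 + A4) < C * (4 * (δ / (8 * C))) :=
      mul_lt_mul_of_pos_left (by linarith) hC0
    have h2 : C * (4 * (δ / (8 * C))) = δ / 2 := by field_simp; norm_num
    linarith
  rcases hcases with hc | hc | hc | hc
  · obtain ⟨hA0, hq6⟩ := hfin _ hc
    obtain ⟨j, hj⟩ := sepA e f P hn hs hC0 hC h1 h0 hK hP x y true F A1 ε hA0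
      (by rw [hA1]; simp [sg]) hy
    exact ⟨j, (hq6.trans hj).trans (le_abs_self _)⟩
  · obtain ⟨hA0, hq6⟩ := hfin _ hc
    obtain ⟨j, hj⟩ := sepA e f P hn hs hC0 hC h1 h0 hK hP y x true F A2 ε hA0
      (by rw [hA2]; simp [sg]) hx
    exact ⟨j, by rw [abs_sub_comm]; exact (hq6.trans hj).trans (le_abs_self _)⟩
  · obtain ⟨hA0, hq6⟩ := hfin _ hc
    obtain ⟨j, hj⟩ := sepA e f P hn hs hC0 hC h1 h0 hK hP x y false F A3 ε hA0
      (by rw [hA3]; simp [sg]) hy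
    exact ⟨j, (hq6.trans hj).trans (le_abs_self _)⟩
  · obtain ⟨hA0, hq6⟩ := hfin _ hc
    obtain ⟨j, hj⟩ := sepA e f P hn hs hC0 hC h1 h0 hK hP y x false F A4 ε hA0
      (by rw [hA4]; simp [sg]) hx
    exact ⟨j, by rw [abs_sub_comm]; exact (hq6.trans hj).trans (le_abs_self _)⟩

end

/-- the embedding for a space with a normalised unconditional basis given with its coefficient
functionals -/
theorem embed {X : Type u} [NormedAddCommGroup X] [NormedSpace ℝ X] [CompleteSpace X]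
    {Γ : Type v} (e : Γ → X) (f : Γ → X →L[ℝ] ℝ) (hn : ∀ i, ‖e i‖ = 1)
    (h1 : ∀ i : Γ, f i (e i) = 1) (h0 : ∀ i j : Γ, i ≠ j → f i (e j) = 0)
    (hs : ∀ x : X, HasSum (fun γ : Γ => f γ x • e γ) x)
    (D : Set X) (hD : Dense D) (hDc : Cardinal.mk ↥D ≤ Cardinal.continuum.{u}) :
    ∃ (φ : X → lp (fun _ : ℕ => ℝ) ∞) (K L : NNReal),
      LipschitzWith K φ ∧ AntilipschitzWith L φ ∧
      ∀ j : ℕ, ContDiff ℝ (⊤ : ℕ∞) (fun x => φ x j) := by
  obtain ⟨K, hK0, hK⟩ := S_bound e f hs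
  have hC0 : (0:ℝ) < 2 * K := by positivity
  have hC := mult_bound e f h1 h0 hK
  have hK' : ∀ (A : Finset Γ) (x : X), ‖∑ γ ∈ A, f γ x • e γ‖ ≤ 2 * K * ‖x‖ := by
    intro A x
    refine (hK A x).trans ?_
    apply mul_le_mul_of_nonneg_right _ (norm_nonneg _)
    linarith
  obtain ⟨ι, hι⟩ := exists_inj e f hn h1 h0 hK0 hK D hD hDc
  obtain ⟨P, hP⟩ := thresholds ι hι
  have : Nonempty J := ⟨(0, ⟨1, one_pos⟩, true)⟩
  obtain ⟨en, hen⟩ := exists_surjective_nat J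
  have hlip : ∀ j x y, |Gj e f P j x - Gj e f P j y| ≤ 2 * K * ‖x - y‖ :=
    fun j x y => G_lip e f (jpos j) (sg_abs _) (tt_ge P j) hn hs hC0 hC x y
  have hmem : ∀ x : X, Memℓp (fun n : ℕ => Gj e f P (en n) x) ∞ := by
    intro x
    apply memℓp_infty
    refine ⟨2 * K * ‖x‖, ?_⟩
    rintro _ ⟨n, rfl⟩
    have h2 := hlip (en n) x 0
    have h3 : Gj e f P (en n) 0 = 0 := G_zero e f (jpos _) (sg_abs _) (tt_ge P _) hn hs hC0 hC
    rw [h3, sub_zero, sub_zero] at h2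
    exact h2
  let φ : X → lp (fun _ : ℕ => ℝ) ∞ := fun x => ⟨fun n => Gj e f P (en n) x, hmem x⟩
  have hφ : ∀ x n, φ x n = Gj e f P (en n) x := fun x n => rfl
  refine ⟨φ, ⟨2 * K, by positivity⟩, ⟨(1 / (32 * (2 * K) ^ 3))⁻¹, by positivity⟩, ?_, ?_, ?_⟩
  · apply LipschitzWith.of_dist_le_mul
    intro x y
    rw [dist_eq_norm, dist_eq_norm]
    apply lp.norm_le_of_forall_le (mul_nonneg (NNReal.coe_nonneg _) (norm_nonneg _))
    intro n
    exact hlip (en n) x y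
  · apply AntilipschitzWith.of_le_mul_dist
    intro x y
    by_cases hxy : x = y
    · rw [hxy, dist_self]; exact mul_nonneg (NNReal.coe_nonneg _) dist_nonneg
    obtain ⟨j, hj⟩ := sep e f P hn hs hC0 hC h1 h0 hK' hP x y hxy
    obtain ⟨n, hn⟩ := hen j
    have h2 : |Gj e f P j x - Gj e f P j y| ≤ ‖φ x - φ y‖ := by
      have := lp.norm_apply_le_norm (p := ∞) ENNReal.top_ne_zero (φ x - φ y) n
      rw [← hn]
      exact this
    rw [dist_eq_norm, dist_eq_norm]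
    have h3 := hj.trans h2
    have hpos : 0 < 1 / (32 * (2 * K) ^ 3) := by positivity
    show ‖x - y‖ ≤ (1 / (32 * (2 * K) ^ 3))⁻¹ * ‖φ x - φ y‖
    rw [inv_mul_eq_div, le_div_iff₀ hpos, mul_comm]
    exact h3
  · intro n
    exact G_contDiff e f (jpos (en n)) (sg_abs _) (tt_ge P _) hn hs hC0 hK'

end Pool.Agent.MP_786be7_an.Ins
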